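import Pool.Agent.Run7.h991.PS.Iface

set_option autoImplicit false

/-!
# Piece `SEQB` of MP_7886dd_an (project PS of helper991)
-/

open MeasureTheory

namespace Pool.Agent.Run7.h437.PS

open H991.PS

lemma cut_apply {n : ℕ} (η : ℝ) (u : C(S n, ℝ)) (z : S n) :
    cut η u z = min 1 (max 0 (2 * u z / η - 1)) := rfl

lemma cut_nonneg {n : ℕ} (η : ℝ) (u : C(S n, ℝ)) (z : S n) : 0 ≤ cut η u z := by
  rw [cut_apply]
  exact le_min zero_le_one (le_max_left _ _)

lemma cut_le_one {n : ℕ} (η : ℝ) (u : C(S n, ℝ)) (z : S n) : cut η u z ≤ 1 := by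
  rw [cut_apply]
  exact min_le_left _ _

lemma cut_zero {n : ℕ} {η : ℝ} (hη : 0 < η) (u : C(S n, ℝ)) (z : S n) (h : u z < η / 2) :
    cut η u z = 0 := by
  rw [cut_apply]
  have h1 : 2 * u z / η - 1 ≤ 0 := by
    rw [sub_nonpos, div_le_one hη]
    linarith
  rw [max_eq_left h1]
  exact min_eq_right zero_le_one

lemma cut_mul {n : ℕ} {η : ℝ} (hη : 0 < η) (u : C(S n, ℝ)) (z : S n) (h0 : 0 ≤ u z) :
    u z - η ≤ cut η u z * u z := by
  rcases le_or_gt η (u z) with h | h
  · have h1 : 1 ≤ 2 * u z / η - 1 := by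
      rw [le_sub_iff_add_le, le_div_iff₀ hη]
      linarith
    have h2 : cut η u z = 1 := by
      rw [cut_apply]
      exact min_eq_left (h1.trans (le_max_right _ _))
    rw [h2]
    linarith
  · have h1 : 0 ≤ cut η u z * u z := mul_nonneg (cut_nonneg η u z) h0
    linarith

lemma sum_quarter (k : ℕ) :
    ∑ i ∈ Finset.range k, (1 / 4 : ℝ) ^ (i + 2) = 1 / 12 * (1 - (1 / 4 : ℝ) ^ k) := by
  induction k with
  | zero => simp
  | succ k ih =>
    rw [Finset.sum_range_succ, ih, pow_succ, pow_add]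
    ring

theorem t_SEQB (hSEQA : S_SEQA) (hMEAN : S_MEAN) : S_SEQB := by
  intro n σ _ hσ
  obtain ⟨u, hg, hsq, hcut⟩ := hSEQA n σ hσ
  have hηpos : ∀ i : ℕ, (0 : ℝ) < (1 / 4 : ℝ) ^ (i + 2) := fun i => by positivity
  have hmean : ∀ j, ∫ z, u j z ∂σ = 1 := fun j => hMEAN n σ hσ (u j) (hg j)
  have hupos : ∀ j z, 0 < u j z := fun j => (hg j).1
  let F : ℕ → Set (S n) := fun i => {z | (1 / 4 : ℝ) ^ (i + 2) / 2 ≤ u i z}
  let ψ : ℕ → C(S n, ℝ) := fun i => cut ((1 / 4 : ℝ) ^ (i + 2)) (u i)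
  have hFc : ∀ i, IsClosed (F i) := fun i => isClosed_le continuous_const (u i).continuous
  refine ⟨u, F, hg, hFc, ?_, ?_⟩
  · -- Markov
    intro i
    have hi : Integrable (fun z => Real.sqrt (u i z)) σ := cint σ (by fun_prop)
    have h1 := mul_meas_ge_le_integral_of_nonneg
      (μ := σ) (f := fun z => Real.sqrt (u i z)) (ae_of_all _ fun z => Real.sqrt_nonneg _) hi
      ((1 / 2 : ℝ) ^ (i + 3))
    have hsub : F i ⊆ {z | (1 / 2 : ℝ) ^ (i + 3) ≤ Real.sqrt (u i z)} := by
      intro z hz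
      have hz' : (1 / 4 : ℝ) ^ (i + 2) / 2 ≤ u i z := hz
      have h2 : ((1 / 2 : ℝ) ^ (i + 3)) ^ 2 ≤ u i z := by
        refine le_trans ?_ hz'
        have e1 : ((1 / 2 : ℝ) ^ (i + 3)) ^ 2 = (1 / 4 : ℝ) ^ (i + 2) / 4 := by
          rw [← pow_mul, mul_comm, pow_mul]
          norm_num [pow_succ]
          ring
        rw [e1]
        have := hηpos i
        linarith
      exact Real.le_sqrt_of_sq_le h2
    have h2 : σ.real (F i) ≤ σ.real {z | (1 / 2 : ℝ) ^ (i + 3) ≤ Real.sqrt (u i z)} :=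
      measureReal_mono hsub
    have h3 : (1 / 2 : ℝ) ^ (i + 3) * σ.real (F i) ≤ (1 / 4 : ℝ) ^ (i + 3) :=
      (mul_le_mul_of_nonneg_left h2 (by positivity)).trans (h1.trans (hsq i))
    have h4 : (1 / 4 : ℝ) ^ (i + 3) = (1 / 2 : ℝ) ^ (i + 3) * (1 / 2 : ℝ) ^ (i + 3) := by
      rw [← mul_pow]
      norm_num
    rw [h4] at h3
    have h5 : σ.real (F i) ≤ (1 / 2 : ℝ) ^ (i + 3) := le_of_mul_le_mul_left h3 (by positivity)
    have h6 : (1 / 2 : ℝ) ^ (i + 3) ≤ (1 / 2 : ℝ) ^ i :=
      pow_le_pow_of_le_one (by norm_num) (by norm_num) (by omega)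
    rw [ENNReal.le_ofReal_iff_toReal_le (measure_ne_top σ _) (by positivity)]
    exact h5.trans h6
  · intro j
    have hint : ∀ g : C(S n, ℝ), Integrable (fun z => g z * u j z) σ := fun g =>
      cint σ (by fun_prop)
    have hintj : Integrable (fun z => u j z) σ := cint σ (by fun_prop)
    -- lower bound of ∫ ψ_i u_j
    have key : ∀ i k, i ≤ k → 1 - (1 / 4 : ℝ) ^ (i + 2) -
        4 / 3 * ((1 / 4 : ℝ) ^ (i + 4) - (1 / 4 : ℝ) ^ (k + 4)) ≤ ∫ z, ψ i z * u k z ∂σ := by
      intro i k hik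
      induction k, hik using Nat.le_induction with
      | base =>
        rw [sub_self, mul_zero, sub_zero]
        have e1 : 1 - (1 / 4 : ℝ) ^ (i + 2) =
            ∫ z, (u i z - (1 / 4 : ℝ) ^ (i + 2)) ∂σ := by
          have hi : Integrable (fun z => u i z) σ := cint σ (by fun_prop)
          rw [integral_sub hi (integrable_const _), integral_const, probReal_univ, one_smul,
            hmean i]
        rw [e1]
        refine integral_mono (cint σ (by fun_prop)) (cint σ (by fun_prop)) fun z => ?_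
        exact cut_mul (hηpos i) (u i) z (hupos i z).le
      | succ k hk ih =>
        have h1 := (abs_le.1 (hcut i k hk)).1
        have i1 : Integrable (fun z => ψ i z * u (k + 1) z) σ := cint σ (by fun_prop)
        have i2 : Integrable (fun z => ψ i z * u k z) σ := cint σ (by fun_prop)
        have e1 : ∫ z, cut ((1 / 4 : ℝ) ^ (i + 2)) (u i) z * (u (k + 1) z - u k z) ∂σ =
            (∫ z, ψ i z * u (k + 1) z ∂σ) - ∫ z, ψ i z * u k z ∂σ := by
          rw [← integral_sub i1 i2]
          refine integral_congr_ae (ae_of_all _ fun z => ?_)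
          show ψ i z * (u (k + 1) z - u k z) = ψ i z * u (k + 1) z - ψ i z * u k z
          ring
        rw [e1] at h1
        have e2 : (1 / 4 : ℝ) ^ (k + 1 + 4) = (1 / 4 : ℝ) ^ (k + 4) / 4 := by
          rw [show k + 1 + 4 = (k + 4) + 1 by ring, pow_succ]
          ring
        rw [e2]
        linarith
    have key2 : ∀ i, i ≤ j → ∫ z, (1 - ψ i z) * u j z ∂σ ≤ 2 * (1 / 4 : ℝ) ^ (i + 2) := by
      intro i hi
      have h1 := key i j hi
      have e1 : ∫ z, (1 - ψ i z) * u j z ∂σ = (∫ z, u j z ∂σ) - ∫ z, ψ i z * u j z ∂σ := by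
        rw [← integral_sub hintj (hint (ψ i))]
        refine integral_congr_ae (ae_of_all _ fun z => ?_)
        show (1 - ψ i z) * u j z = u j z - ψ i z * u j z
        ring
      rw [e1, hmean j]
      have e2 : (1 / 4 : ℝ) ^ (i + 4) = (1 / 4 : ℝ) ^ (i + 2) / 16 := by
        rw [show i + 4 = (i + 2) + 2 by ring, pow_add _ (i + 2) 2]
        ring
      rw [e2] at h1
      have h2 : (0 : ℝ) < (1 / 4 : ℝ) ^ (j + 4) := by positivity
      have h3 := hηpos i
      linarith
    set G : Set (S n) := ⋂ i ∈ Finset.range (j + 1), F i with hG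
    have hGm : MeasurableSet G :=
      (isClosed_biInter fun i _ => hFc i).measurableSet
    have hpt : ∀ z, u j z - ∑ i ∈ Finset.range (j + 1), (1 - ψ i z) * u j z ≤
        G.indicator (fun z => u j z) z := by
      intro z
      have hnn : ∀ i ∈ Finset.range (j + 1), 0 ≤ (1 - ψ i z) * u j z := fun i _ =>
        mul_nonneg (sub_nonneg.2 (cut_le_one _ _ z)) (hupos j z).le
      by_cases hz : z ∈ G
      · rw [Set.indicator_of_mem hz]
        have := Finset.sum_nonneg hnn
        linarith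
      · rw [Set.indicator_of_notMem hz]
        have h1 : ∃ i ∈ Finset.range (j + 1), z ∉ F i := by
          by_contra hcon
          push Not at hcon
          exact hz (Set.mem_iInter₂.2 hcon)
        obtain ⟨i, hi, hzi⟩ := h1
        have h2 : u i z < (1 / 4 : ℝ) ^ (i + 2) / 2 := not_le.1 hzi
        have h3 : ψ i z = 0 := cut_zero (hηpos i) (u i) z h2
        have h4 := Finset.single_le_sum hnn hi
        rw [h3, sub_zero, one_mul] at h4
        linarith
    have hi1 : ∀ i ∈ Finset.range (j + 1), Integrable (fun z => (1 - ψ i z) * u j z) σ :=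
      fun i _ => cint σ (by fun_prop)
    have hsum : Integrable (fun z => ∑ i ∈ Finset.range (j + 1), (1 - ψ i z) * u j z) σ :=
      integrable_finsetSum _ hi1
    have hsub : Integrable (fun z => u j z -
        ∑ i ∈ Finset.range (j + 1), (1 - ψ i z) * u j z) σ := hintj.sub hsum
    calc (3 / 4 : ℝ) ≤ 1 - ∑ i ∈ Finset.range (j + 1), 2 * (1 / 4 : ℝ) ^ (i + 2) := by
          rw [← Finset.mul_sum, sum_quarter]
          have : (0 : ℝ) < (1 / 4 : ℝ) ^ (j + 1) := by positivity
          linarith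
      _ ≤ 1 - ∑ i ∈ Finset.range (j + 1), ∫ z, (1 - ψ i z) * u j z ∂σ := by
          refine sub_le_sub_left (Finset.sum_le_sum fun i hi => ?_) _
          exact key2 i (Nat.lt_succ_iff.1 (Finset.mem_range.1 hi))
      _ = ∫ z, (u j z - ∑ i ∈ Finset.range (j + 1), (1 - ψ i z) * u j z) ∂σ := by
          rw [integral_sub hintj hsum, hmean j, integral_finsetSum _ hi1]
      _ ≤ ∫ z, G.indicator (fun z => u j z) z ∂σ :=
          integral_mono hsub (hintj.indicator hGm) hpt
      _ = ∫ z in G, u j z ∂σ := integral_indicator hGm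

end Pool.Agent.Run7.h437.PS
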