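import Pool.Agent.Run7.h991.PS.Iface

set_option autoImplicit false

/-!
# Piece `STEP` of MP_7886dd_an (project PS of helper991)
-/

open MeasureTheory

namespace Pool.Agent.Run7.h437.PS

open H991.PS

lemma FrGe_anti {n : ℕ} {a b : ℤ} (h : a ≤ b) : FrGe n b ≤ FrGe n a :=
  Submodule.span_mono fun F hF => by
    obtain ⟨k, hk, hF⟩ := hF
    exact ⟨k, h.trans hk, hF⟩

lemma rlb_list (hRLB : S_RLB) (n : ℕ) (σ : Measure (S n)) [IsProbabilityMeasure σ]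
    (hσ : RotInv σ) (M ε : ℝ) (hε : 0 < ε) (L : List C(S n, ℂ)) :
    ∃ m : ℤ, 0 ≤ m ∧ ∀ ψ ∈ L, ∀ F ∈ FrGe n m, (∀ z, ‖F z‖ ≤ M) →
      ‖∫ z, F z * ψ z ∂σ‖ ≤ ε := by
  induction L with
  | nil => exact ⟨0, le_rfl, by simp⟩
  | cons ψ L ih =>
    obtain ⟨m, hm, h⟩ := ih
    obtain ⟨m', h'⟩ := hRLB n σ hσ ψ M ε hε
    refine ⟨max m m', hm.trans (le_max_left _ _), ?_⟩
    intro φ hφ F hF hM
    rcases List.mem_cons.1 hφ with rfl | hφ
    · exact h' F (FrGe_anti (le_max_right _ _) hF) hM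
    · exact h φ hφ F (FrGe_anti (le_max_left _ _) hF) hM

lemma re_bd {n : ℕ} (σ : Measure (S n)) [IsProbabilityMeasure σ] (F ψ : C(S n, ℂ))
    (g : S n → ℝ) (hg : ∀ z, ψ z = ((g z : ℝ) : ℂ)) (ε : ℝ)
    (h : ‖∫ z, F z * ψ z ∂σ‖ ≤ ε) : |∫ z, (F z).re * g z ∂σ| ≤ ε := by
  have hi : Integrable (fun z => F z * ψ z) σ := cint σ (by fun_prop)
  have e1 : ∫ z, (F z).re * g z ∂σ = (∫ z, F z * ψ z ∂σ).re := by
    have e2 : ∫ z, (F z * ψ z).re ∂σ = (∫ z, F z * ψ z ∂σ).re := integral_re hi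
    rw [← e2]
    refine integral_congr_ae (ae_of_all _ fun z => ?_)
    show (F z).re * g z = (F z * ψ z).re
    rw [hg z, Complex.mul_re, Complex.ofReal_re, Complex.ofReal_im]
    ring
  rw [e1]
  exact (Complex.abs_re_le_norm _).trans h

theorem t_STEP (hRWL : S_RWL) (hRLB : S_RLB) (hFMUL : S_FMUL) (hSQI : S_SQI) : S_STEP := by
  intro n
  obtain ⟨c0, hc0, hc1, hW⟩ := hRWL n
  refine ⟨c0 / 32, by positivity, by linarith, ?_⟩
  intro σ _ hσ u hu Ψ ε hε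
  obtain ⟨hupos, H, hH, huH⟩ := hu
  -- the square root
  let s : C(S n, ℝ) := ⟨fun z => Real.sqrt (u z), by fun_prop⟩
  have hs : ∀ z, s z = Real.sqrt (u z) := fun z => rfl
  have hs0 : ∀ z, 0 < s z := fun z => Real.sqrt_pos.mpr (hupos z)
  have hs2 : ∀ z, s z ^ 2 = u z := fun z => Real.sq_sqrt (hupos z).le
  have hsne : ∀ z, s z ≠ 0 := fun z => (hs0 z).ne'
  have hs3ne : ∀ z, s z ^ 3 ≠ 0 := fun z => pow_ne_zero 3 (hsne z)
  have c1 : Continuous fun z => (s z)⁻¹ := s.continuous.inv₀ hsne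
  have c3 : Continuous fun z => (s z ^ 3)⁻¹ := (s.continuous.pow 3).inv₀ hs3ne
  let i1 : C(S n, ℂ) := ⟨fun z => (((s z)⁻¹ : ℝ) : ℂ), Complex.continuous_ofReal.comp c1⟩
  let i3 : C(S n, ℂ) := ⟨fun z => (((s z ^ 3)⁻¹ : ℝ) : ℂ), Complex.continuous_ofReal.comp c3⟩
  let cc : C(S n, ℝ) → C(S n, ℂ) := fun ψ =>
    ⟨fun z => ((ψ z : ℝ) : ℂ), Complex.continuous_ofReal.comp ψ.continuous⟩
  -- the bound
  have hC : ∀ z, u z ≤ ‖u‖ := fun z => (le_abs_self _).trans (u.norm_coe_le_norm z)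
  have hC0 : 0 ≤ ‖u‖ := norm_nonneg _
  set M : ℝ := ‖u‖ + ‖u‖ ^ 2 with hM
  obtain ⟨m, hm, hm'⟩ := rlb_list hRLB n σ hσ M ε hε (i1 :: i3 :: Ψ.map cc)
  obtain ⟨h, hHH, hFr, hle, hlow⟩ := hW σ u s ⟨hupos, H, hH, huH⟩ (fun z => ⟨hs0 z, hs2 z⟩) m
  have hh2 : h * h ∈ FrGe n m :=
    FrGe_anti (by linarith) ((hFMUL n).1 m m h hFr h hFr)
  have hbd1 : ∀ z, ‖h z‖ ≤ M := by
    intro z
    have h1 := hle z
    have h2 := hC z
    have h3 := (hupos z).le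
    have : 0 ≤ ‖u‖ ^ 2 := by positivity
    linarith
  have hbd2 : ∀ z, ‖(h * h) z‖ ≤ M := by
    intro z
    have h1 : ‖h z‖ ≤ ‖u‖ := by
      have h1 := hle z
      have h2 := hC z
      have h3 := (hupos z).le
      linarith
    have h2 : ‖(h * h) z‖ = ‖h z‖ ^ 2 := by
      rw [ContinuousMap.mul_apply, norm_mul]
      ring
    rw [h2]
    have h3 : ‖h z‖ ^ 2 ≤ ‖u‖ ^ 2 := pow_le_pow_left₀ (norm_nonneg _) h1 2
    linarith
  let v : C(S n, ℝ) := ⟨fun z => u z + (h z).re, by fun_prop⟩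
  have hv : ∀ z, v z = u z + (h z).re := fun z => rfl
  have hre : ∀ z, |(h z).re| ≤ u z / 2 := fun z => (Complex.abs_re_le_norm _).trans (hle z)
  refine ⟨v, ⟨?_, H + h, Submodule.add_mem _ hH hHH, ?_⟩, ?_, ?_⟩
  · intro z
    have h1 := (abs_le.1 (hre z)).1
    have h2 := hupos z
    rw [hv]
    linarith
  · intro z
    rw [hv, huH z, ContinuousMap.add_apply, Complex.add_re]
    ring
  · -- the integral of the square root
    have b1 : |∫ z, (h z).re * (s z)⁻¹ ∂σ| ≤ ε :=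
      re_bd σ h i1 (fun z => (s z)⁻¹) (fun z => rfl) ε (hm' i1 (by simp) h hFr hbd1)
    have b3 : |∫ z, ((h * h) z).re * (s z ^ 3)⁻¹ ∂σ| ≤ ε :=
      re_bd σ (h * h) i3 (fun z => (s z ^ 3)⁻¹) (fun z => rfl) ε
        (hm' i3 (by simp) (h * h) hh2 hbd2)
    have hpt : ∀ z, Real.sqrt (v z) ≤ s z + 1 / 2 * ((h z).re * (s z)⁻¹) -
        1 / 32 * (‖h z‖ ^ 2 / s z ^ 3) - 1 / 32 * (((h * h) z).re * (s z ^ 3)⁻¹) := by
      intro z
      have h1 := hSQI (s z) (h z).re (hs0 z) (by rw [hs2]; exact hre z)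
      rw [hs2, ← hv] at h1
      refine h1.trans (le_of_eq ?_)
      have h2 : ‖h z‖ ^ 2 = (h z).re ^ 2 + (h z).im ^ 2 := by
        rw [← Complex.normSq_eq_norm_sq, Complex.normSq_apply]
        ring
      have h3 : ((h * h) z).re = (h z).re ^ 2 - (h z).im ^ 2 := by
        rw [ContinuousMap.mul_apply, Complex.mul_re]
        ring
      rw [h2, h3]
      have := hsne z
      field_simp
      ring
    have j0 : Integrable (fun z => s z) σ := cint σ (by fun_prop)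
    have j1 : Integrable (fun z => (h z).re * (s z)⁻¹) σ :=
      cint σ ((Complex.continuous_re.comp h.continuous).mul c1)
    have j2 : Integrable (fun z => ‖h z‖ ^ 2 / s z ^ 3) σ :=
      cint σ ((h.continuous.norm.pow 2).div (s.continuous.pow 3) hs3ne)
    have j3 : Integrable (fun z => ((h * h) z).re * (s z ^ 3)⁻¹) σ :=
      cint σ ((Complex.continuous_re.comp (h * h).continuous).mul c3)
    have jv : Integrable (fun z => Real.sqrt (v z)) σ := cint σ (by fun_prop)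
    have k1 : Integrable (fun z => s z + 1 / 2 * ((h z).re * (s z)⁻¹)) σ :=
      j0.add (j1.const_mul _)
    have k2 : Integrable (fun z => s z + 1 / 2 * ((h z).re * (s z)⁻¹) -
        1 / 32 * (‖h z‖ ^ 2 / s z ^ 3)) σ := k1.sub (j2.const_mul _)
    have k3 : Integrable (fun z => s z + 1 / 2 * ((h z).re * (s z)⁻¹) -
        1 / 32 * (‖h z‖ ^ 2 / s z ^ 3) - 1 / 32 * (((h * h) z).re * (s z ^ 3)⁻¹)) σ :=
      k2.sub (j3.const_mul _)
    have e1 : ∫ z, Real.sqrt (v z) ∂σ ≤ (∫ z, s z ∂σ) + 1 / 2 * (∫ z, (h z).re * (s z)⁻¹ ∂σ) -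
        1 / 32 * (∫ z, ‖h z‖ ^ 2 / s z ^ 3 ∂σ) -
        1 / 32 * ∫ z, ((h * h) z).re * (s z ^ 3)⁻¹ ∂σ := by
      refine (integral_mono jv k3 hpt).trans (le_of_eq ?_)
      rw [integral_sub k2 (j3.const_mul _), integral_sub k1 (j2.const_mul _),
        integral_add j0 (j1.const_mul _), integral_const_mul, integral_const_mul,
        integral_const_mul]
    have e2 : ∫ z, Real.sqrt (u z) ∂σ = ∫ z, s z ∂σ := rfl
    rw [e2]
    have a1 := (abs_le.1 b1).2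
    have a3 := (abs_le.1 b3).1
    linarith
  · intro ψ hψ
    have h1 : cc ψ ∈ i1 :: i3 :: Ψ.map cc := by
      simp only [List.mem_cons]
      exact Or.inr (Or.inr (List.mem_map_of_mem hψ))
    have b1 := re_bd σ h (cc ψ) (fun z => ψ z) (fun z => rfl) ε (hm' (cc ψ) h1 h hFr hbd1)
    have e1 : ∫ z, ψ z * (v z - u z) ∂σ = ∫ z, (h z).re * ψ z ∂σ := by
      refine integral_congr_ae (ae_of_all _ fun z => ?_)
      show ψ z * (v z - u z) = (h z).re * ψ z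
      rw [hv]
      ring
    rw [e1]
    exact b1

end Pool.Agent.Run7.h437.PS
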